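import Pool.Agent.L7h49.PM.Def

/-! Project PM (planar metric): CROSS. -/

set_option autoImplicit false

namespace Pool.Agent.L7h99.PM

open Pool.Agent.L7h49.PM

theorem mem_fat {V : Type} {G : SimpleGraph V} {f : V → E2} {C : ℝ} (hC : 0 ≤ C) {A : Set E2}
    {w : V} {p : E2} (hp : p ∈ A) (h : ‖f w - p‖ ≤ C) : w ∈ Fat G f C A :=
  ⟨w, ⟨p, hp, h⟩, by rw [SimpleGraph.dist_self]; push_cast; linarith⟩

theorem meet {V : Type} {G : SimpleGraph V} {f : V → E2} {C : ℝ} (hR : Rough G f C)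
    {A A' : Set E2} {p : E2} (hp : p ∈ A) (hp' : p ∈ A') :
    (Fat G f C A ∩ Fat G f C A').Nonempty := by
  obtain ⟨x, hx⟩ := hR.net p
  have hC : 0 ≤ C := by linarith [hR.one]
  exact ⟨x, mem_fat hC hp hx.le, mem_fat hC hp' hx.le⟩

theorem coord_le {p q : E2} {k : ℝ} (h : ‖p - q‖ ≤ k) (i : Fin 2) : |p i - q i| ≤ k := by
  have h1 := PiLp.norm_apply_le (p - q) i
  have h2 : ‖(p - q) i‖ = |p i - q i| := rfl
  rw [h2] at h1
  linarith

/-- boxes -/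
def Bx (k x1 x2 y1 y2 : ℝ) : Set E2 := {p | bx k x1 x2 y1 y2 (p 0) (p 1)}

theorem pre_box (k x1 x2 y1 y2 : ℝ) : IsPreconnected (Bx k x1 x2 y1 y2) := by
  apply Convex.isPreconnected
  intro p hp q hq a b ha hb hab
  obtain ⟨h1, h2, h3, h4⟩ := hp
  obtain ⟨g1, g2, g3, g4⟩ := hq
  have e0 : (a • p + b • q) 0 = a * p 0 + b * q 0 := rfl
  have e1 : (a • p + b • q) 1 = a * p 1 + b * q 1 := rfl
  have key : ∀ c : ℝ, c = a * c + b * c := fun c => by rw [← add_mul, hab, one_mul]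
  refine ⟨?_, ?_, ?_, ?_⟩
  · rw [e0, key (x1 - k)]
    exact add_le_add (mul_le_mul_of_nonneg_left h1 ha) (mul_le_mul_of_nonneg_left g1 hb)
  · rw [e0, key (x2 + k)]
    exact add_le_add (mul_le_mul_of_nonneg_left h2 ha) (mul_le_mul_of_nonneg_left g2 hb)
  · rw [e1, key (y1 - k)]
    exact add_le_add (mul_le_mul_of_nonneg_left h3 ha) (mul_le_mul_of_nonneg_left g3 hb)
  · rw [e1, key (y2 + k)]
    exact add_le_add (mul_le_mul_of_nonneg_left h4 ha) (mul_le_mul_of_nonneg_left g4 hb)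

theorem mem_box {k x1 x2 y1 y2 x y : ℝ} (h : bx k x1 x2 y1 y2 x y) : pt x y ∈ Bx k x1 x2 y1 y2 := h

theorem pre_three {A B D : Set E2} {p q : E2} (hA : IsPreconnected A) (hB : IsPreconnected B)
    (hD : IsPreconnected D) (h1 : p ∈ A) (h2 : p ∈ B) (h3 : q ∈ B) (h4 : q ∈ D) :
    IsPreconnected (A ∪ (B ∪ D)) :=
  IsPreconnected.union p h1 (Or.inl h2) hA (IsPreconnected.union q h3 h4 hB hD)

theorem bx_mono {k r x1 x2 y1 y2 X Y X' Y' : ℝ} (h : bx k x1 x2 y1 y2 X Y) (hX : |X' - X| ≤ r)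
    (hY : |Y' - Y| ≤ r) : bx (k + r) x1 x2 y1 y2 X' Y' := by
  obtain ⟨h1, h2, h3, h4⟩ := h
  rw [abs_le] at hX hY
  exact ⟨by linarith, by linarith, by linarith, by linarith⟩

theorem bx_mono0 {r x1 x2 y1 y2 X Y X' Y' : ℝ} (h : bx 0 x1 x2 y1 y2 X Y) (hX : |X' - X| ≤ r)
    (hY : |Y' - Y| ≤ r) : bx r x1 x2 y1 y2 X' Y' := by
  have := bx_mono h hX hY
  rwa [zero_add] at this

theorem five (i : Fin 5) : i = 0 ∨ i = 1 ∨ i = 2 ∨ i = 3 ∨ i = 4 := by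
  fin_cases i <;> simp

theorem ten (i j : Fin 5) (h : i < j) : (i = 0 ∧ j = 1) ∨ (i = 0 ∧ j = 2) ∨ (i = 0 ∧ j = 3) ∨
    (i = 0 ∧ j = 4) ∨ (i = 1 ∧ j = 2) ∨ (i = 1 ∧ j = 3) ∨ (i = 1 ∧ j = 4) ∨ (i = 2 ∧ j = 3) ∨
    (i = 2 ∧ j = 4) ∨ (i = 3 ∧ j = 4) := by
  revert i j
  decide

section
variable {L C y0 y1 t0 t1 : ℝ}

theorem cr_mono {r X Y X' Y' : ℝ} (i : Fin 5) (h : cr L C y0 y1 t0 t1 0 i X Y)
    (hX : |X' - X| ≤ r) (hY : |Y' - Y| ≤ r) : cr L C y0 y1 t0 t1 r i X' Y' := by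
  rcases five i with rfl | rfl | rfl | rfl | rfl
  · have h' : bx (30 * C + 0) 0 0 y0 y0 X Y := h
    rw [add_zero] at h'
    exact bx_mono h' hX hY
  · have h' : bx (30 * C + 0) 0 0 y1 y1 X Y := h
    rw [add_zero] at h'
    exact bx_mono h' hX hY
  · have h' : bx (30 * C + 0) L L t1 t1 X Y := h
    rw [add_zero] at h'
    exact bx_mono h' hX hY
  · have h' : bx (30 * C + 0) L L t0 t0 X Y := h
    rw [add_zero] at h'
    exact bx_mono h' hX hY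
  · have h' : bx 0 (-L) (-L) (-L) (2 * L) X Y ∨ bx 0 (-L) (2 * L) (2 * L) (2 * L) X Y ∨
      bx 0 (2 * L) (2 * L) (-L) (2 * L) X Y := h
    rcases h' with h' | h' | h'
    · exact Or.inl (bx_mono0 h' hX hY)
    · exact Or.inr (Or.inl (bx_mono0 h' hX hY))
    · exact Or.inr (Or.inr (bx_mono0 h' hX hY))

theorem crW_mono {r X Y X' Y' : ℝ} (i j : Fin 5) (hij : i < j) (h1 : ¬ (i = 0 ∧ j = 2))
    (h2 : ¬ (i = 1 ∧ j = 3)) (h : crW L C y0 y1 t0 t1 0 i j X Y)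
    (hX : |X' - X| ≤ r) (hY : |Y' - Y| ≤ r) : crW L C y0 y1 t0 t1 r i j X' Y' := by
  rcases ten i j hij with ⟨rfl, rfl⟩ | ⟨rfl, rfl⟩ | ⟨rfl, rfl⟩ | ⟨rfl, rfl⟩ | ⟨rfl, rfl⟩ |
    ⟨rfl, rfl⟩ | ⟨rfl, rfl⟩ | ⟨rfl, rfl⟩ | ⟨rfl, rfl⟩ | ⟨rfl, rfl⟩
  · exact bx_mono0 (show bx 0 0 0 y0 y1 X Y from h) hX hY
  · exact absurd ⟨rfl, rfl⟩ h1
  · have h' : bx 0 0 0 (-L) y0 X Y ∨ bx 0 0 L (-L) (-L) X Y ∨ bx 0 L L (-L) t0 X Y := h
    rcases h' with h' | h' | h'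
    · exact Or.inl (bx_mono0 h' hX hY)
    · exact Or.inr (Or.inl (bx_mono0 h' hX hY))
    · exact Or.inr (Or.inr (bx_mono0 h' hX hY))
  · exact bx_mono0 (show bx 0 (-L) 0 y0 y0 X Y from h) hX hY
  · have h' : bx 0 0 0 y1 L X Y ∨ bx 0 0 L L L X Y ∨ bx 0 L L t1 L X Y := h
    rcases h' with h' | h' | h'
    · exact Or.inl (bx_mono0 h' hX hY)
    · exact Or.inr (Or.inl (bx_mono0 h' hX hY))
    · exact Or.inr (Or.inr (bx_mono0 h' hX hY))
  · exact absurd ⟨rfl, rfl⟩ h2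
  · exact bx_mono0 (show bx 0 (-L) 0 y1 y1 X Y from h) hX hY
  · exact bx_mono0 (show bx 0 L L t0 t1 X Y from h) hX hY
  · exact bx_mono0 (show bx 0 L (2 * L) t1 t1 X Y from h) hX hY
  · exact bx_mono0 (show bx 0 L (2 * L) t0 t0 X Y from h) hX hY

/-- the centres -/
def cs (L C y0 y1 t0 t1 : ℝ) (i : Fin 5) : Set E2 := {p | cr L C y0 y1 t0 t1 0 i (p 0) (p 1)}

/-- the connections -/
def ws (L C y0 y1 t0 t1 : ℝ) (i j : Fin 5) : Set E2 :=
  {p | crW L C y0 y1 t0 t1 0 i j (p 0) (p 1)}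

theorem cs_pre (hG : Good L C y0 y1 t0 t1) (i : Fin 5) :
    IsPreconnected (cs L C y0 y1 t0 t1 i) ∧ (cs L C y0 y1 t0 t1 i).Nonempty := by
  have hC := hG.one
  have hL := hG.large
  rcases five i with rfl | rfl | rfl | rfl | rfl
  · exact ⟨pre_box (30 * C + 0) 0 0 y0 y0, pt 0 y0, mem_box (by
      unfold bx; refine ⟨by linarith, by linarith, by linarith, by linarith⟩)⟩
  · exact ⟨pre_box (30 * C + 0) 0 0 y1 y1, pt 0 y1, mem_box (by
      unfold bx; refine ⟨by linarith, by linarith, by linarith, by linarith⟩)⟩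
  · exact ⟨pre_box (30 * C + 0) L L t1 t1, pt L t1, mem_box (by
      unfold bx; refine ⟨by linarith, by linarith, by linarith, by linarith⟩)⟩
  · exact ⟨pre_box (30 * C + 0) L L t0 t0, pt L t0, mem_box (by
      unfold bx; refine ⟨by linarith, by linarith, by linarith, by linarith⟩)⟩
  · refine ⟨pre_three (p := pt (-L) (2 * L)) (q := pt (2 * L) (2 * L))
      (pre_box 0 (-L) (-L) (-L) (2 * L)) (pre_box 0 (-L) (2 * L) (2 * L) (2 * L))
      (pre_box 0 (2 * L) (2 * L) (-L) (2 * L)) (mem_box ?_) (mem_box ?_) (mem_box ?_)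
      (mem_box ?_), pt (-L) (2 * L), Or.inl (mem_box (k := 0) (x1 := -L) (x2 := -L) (y1 := -L)
      (y2 := 2 * L) ?_)⟩ <;>
    · unfold bx
      refine ⟨by linarith, by linarith, by linarith, by linarith⟩

theorem ws_pre (hG : Good L C y0 y1 t0 t1) (i j : Fin 5) (hij : i < j) (h1 : ¬ (i = 0 ∧ j = 2))
    (h2 : ¬ (i = 1 ∧ j = 3)) : IsPreconnected (ws L C y0 y1 t0 t1 i j) := by
  have hC := hG.one
  have hL := hG.large
  have a1 := hG.y0
  have a2 := hG.y1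
  have a3 := hG.t0
  have a4 := hG.t1
  have a5 := hG.y
  have a6 := hG.t
  rcases ten i j hij with ⟨rfl, rfl⟩ | ⟨rfl, rfl⟩ | ⟨rfl, rfl⟩ | ⟨rfl, rfl⟩ | ⟨rfl, rfl⟩ |
    ⟨rfl, rfl⟩ | ⟨rfl, rfl⟩ | ⟨rfl, rfl⟩ | ⟨rfl, rfl⟩ | ⟨rfl, rfl⟩
  · exact pre_box 0 0 0 y0 y1
  · exact absurd ⟨rfl, rfl⟩ h1
  · refine pre_three (p := pt 0 (-L)) (q := pt L (-L)) (pre_box 0 0 0 (-L) y0)
      (pre_box 0 0 L (-L) (-L)) (pre_box 0 L L (-L) t0) (mem_box ?_) (mem_box ?_) (mem_box ?_)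
      (mem_box ?_) <;>
    · unfold bx
      refine ⟨by linarith, by linarith, by linarith, by linarith⟩
  · exact pre_box 0 (-L) 0 y0 y0
  · refine pre_three (p := pt 0 L) (q := pt L L) (pre_box 0 0 0 y1 L)
      (pre_box 0 0 L L L) (pre_box 0 L L t1 L) (mem_box ?_) (mem_box ?_) (mem_box ?_)
      (mem_box ?_) <;>
    · unfold bx
      refine ⟨by linarith, by linarith, by linarith, by linarith⟩
  · exact absurd ⟨rfl, rfl⟩ h2
  · exact pre_box 0 (-L) 0 y1 y1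
  · exact pre_box 0 L L t0 t1
  · exact pre_box 0 L (2 * L) t1 t1
  · exact pre_box 0 L (2 * L) t0 t0

theorem ws_meet (hG : Good L C y0 y1 t0 t1) (i j : Fin 5) (hij : i < j) (h1 : ¬ (i = 0 ∧ j = 2))
    (h2 : ¬ (i = 1 ∧ j = 3)) :
    (∃ p, p ∈ ws L C y0 y1 t0 t1 i j ∧ p ∈ cs L C y0 y1 t0 t1 i) ∧
    (∃ p, p ∈ ws L C y0 y1 t0 t1 i j ∧ p ∈ cs L C y0 y1 t0 t1 j) := by
  have hC := hG.one
  have hL := hG.large
  have a1 := hG.y0
  have a2 := hG.y1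
  have a3 := hG.t0
  have a4 := hG.t1
  have a5 := hG.y
  have a6 := hG.t
  have hc0 : pt 0 y0 ∈ cs L C y0 y1 t0 t1 0 :=
    (mem_box (by unfold bx; refine ⟨by linarith, by linarith, by linarith, by linarith⟩) :
      pt 0 y0 ∈ Bx (30 * C + 0) 0 0 y0 y0)
  have hc1 : pt 0 y1 ∈ cs L C y0 y1 t0 t1 1 :=
    (mem_box (by unfold bx; refine ⟨by linarith, by linarith, by linarith, by linarith⟩) :
      pt 0 y1 ∈ Bx (30 * C + 0) 0 0 y1 y1)
  have hc2 : pt L t1 ∈ cs L C y0 y1 t0 t1 2 :=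
    (mem_box (by unfold bx; refine ⟨by linarith, by linarith, by linarith, by linarith⟩) :
      pt L t1 ∈ Bx (30 * C + 0) L L t1 t1)
  have hc3 : pt L t0 ∈ cs L C y0 y1 t0 t1 3 :=
    (mem_box (by unfold bx; refine ⟨by linarith, by linarith, by linarith, by linarith⟩) :
      pt L t0 ∈ Bx (30 * C + 0) L L t0 t0)
  have hc4 : ∀ y : ℝ, -L ≤ y → y ≤ 2 * L → pt (-L) y ∈ cs L C y0 y1 t0 t1 4 ∧
      pt (2 * L) y ∈ cs L C y0 y1 t0 t1 4 := by
    intro y b1 b2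
    constructor
    · exact Or.inl (mem_box (by
        unfold bx; refine ⟨by linarith, by linarith, by linarith, by linarith⟩) :
        pt (-L) y ∈ Bx 0 (-L) (-L) (-L) (2 * L))
    · exact Or.inr (Or.inr (mem_box (by
        unfold bx; refine ⟨by linarith, by linarith, by linarith, by linarith⟩) :
        pt (2 * L) y ∈ Bx 0 (2 * L) (2 * L) (-L) (2 * L)))
  rcases ten i j hij with ⟨rfl, rfl⟩ | ⟨rfl, rfl⟩ | ⟨rfl, rfl⟩ | ⟨rfl, rfl⟩ | ⟨rfl, rfl⟩ |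
    ⟨rfl, rfl⟩ | ⟨rfl, rfl⟩ | ⟨rfl, rfl⟩ | ⟨rfl, rfl⟩ | ⟨rfl, rfl⟩
  · refine ⟨⟨pt 0 y0, (mem_box ?_ : pt 0 y0 ∈ Bx 0 0 0 y0 y1), hc0⟩,
      ⟨pt 0 y1, (mem_box ?_ : pt 0 y1 ∈ Bx 0 0 0 y0 y1), hc1⟩⟩ <;>
    · unfold bx
      refine ⟨by linarith, by linarith, by linarith, by linarith⟩
  · exact absurd ⟨rfl, rfl⟩ h1
  · refine ⟨⟨pt 0 y0, Or.inl (mem_box ?_ : pt 0 y0 ∈ Bx 0 0 0 (-L) y0), hc0⟩,
      ⟨pt L t0, Or.inr (Or.inr (mem_box ?_ : pt L t0 ∈ Bx 0 L L (-L) t0)), hc3⟩⟩ <;>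
    · unfold bx
      refine ⟨by linarith, by linarith, by linarith, by linarith⟩
  · refine ⟨⟨pt 0 y0, (mem_box ?_ : pt 0 y0 ∈ Bx 0 (-L) 0 y0 y0), hc0⟩,
      ⟨pt (-L) y0, (mem_box ?_ : pt (-L) y0 ∈ Bx 0 (-L) 0 y0 y0), (hc4 y0 ?_ ?_).1⟩⟩
    · unfold bx
      refine ⟨by linarith, by linarith, by linarith, by linarith⟩
    · unfold bx
      refine ⟨by linarith, by linarith, by linarith, by linarith⟩
    · linarith
    · linarith
  · refine ⟨⟨pt 0 y1, Or.inl (mem_box ?_ : pt 0 y1 ∈ Bx 0 0 0 y1 L), hc1⟩,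
      ⟨pt L t1, Or.inr (Or.inr (mem_box ?_ : pt L t1 ∈ Bx 0 L L t1 L)), hc2⟩⟩ <;>
    · unfold bx
      refine ⟨by linarith, by linarith, by linarith, by linarith⟩
  · exact absurd ⟨rfl, rfl⟩ h2
  · refine ⟨⟨pt 0 y1, (mem_box ?_ : pt 0 y1 ∈ Bx 0 (-L) 0 y1 y1), hc1⟩,
      ⟨pt (-L) y1, (mem_box ?_ : pt (-L) y1 ∈ Bx 0 (-L) 0 y1 y1), (hc4 y1 ?_ ?_).1⟩⟩
    · unfold bx
      refine ⟨by linarith, by linarith, by linarith, by linarith⟩
    · unfold bx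
      refine ⟨by linarith, by linarith, by linarith, by linarith⟩
    · linarith
    · linarith
  · refine ⟨⟨pt L t1, (mem_box ?_ : pt L t1 ∈ Bx 0 L L t0 t1), hc2⟩,
      ⟨pt L t0, (mem_box ?_ : pt L t0 ∈ Bx 0 L L t0 t1), hc3⟩⟩ <;>
    · unfold bx
      refine ⟨by linarith, by linarith, by linarith, by linarith⟩
  · refine ⟨⟨pt L t1, (mem_box ?_ : pt L t1 ∈ Bx 0 L (2 * L) t1 t1), hc2⟩,
      ⟨pt (2 * L) t1, (mem_box ?_ : pt (2 * L) t1 ∈ Bx 0 L (2 * L) t1 t1), (hc4 t1 ?_ ?_).2⟩⟩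
    · unfold bx
      refine ⟨by linarith, by linarith, by linarith, by linarith⟩
    · unfold bx
      refine ⟨by linarith, by linarith, by linarith, by linarith⟩
    · linarith
    · linarith
  · refine ⟨⟨pt L t0, (mem_box ?_ : pt L t0 ∈ Bx 0 L (2 * L) t0 t0), hc3⟩,
      ⟨pt (2 * L) t0, (mem_box ?_ : pt (2 * L) t0 ∈ Bx 0 L (2 * L) t0 t0), (hc4 t0 ?_ ?_).2⟩⟩
    · unfold bx
      refine ⟨by linarith, by linarith, by linarith, by linarith⟩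
    · unfold bx
      refine ⟨by linarith, by linarith, by linarith, by linarith⟩
    · linarith
    · linarith

end

theorem s_CROSS (h1 : S_CON) (h2 : S_MIN) (h3 : S_REG) (h4 : S_PLA) (h5 : S_PLB) : S_CROSS := by
  intro V G f C hR L y0 y1 t0 t1 hG a b c d P Q ha hb hc hd haP hcP hbQ hdQ hP hQ hPQ hPe hQe
  classical
  have hC1 := hG.one
  have hL := hG.large
  have a1 := hG.y0
  have a2 := hG.y1
  have a3 := hG.t0
  have a4 := hG.t1
  have a5 := hG.y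
  have a6 := hG.t
  have hC0 : 0 ≤ C := by linarith
  have hPreg : ∀ w ∈ P, Reg L C y0 t1 (f w 0) (f w 1) := fun w hw =>
    h3 L C y0 t1 (f a) (f c) (f w) hC1 hL (abs_le.2 ⟨by linarith, by linarith⟩)
      (abs_le.2 ⟨by linarith, by linarith⟩) ha hc (hPe w hw)
  have hQreg : ∀ w ∈ Q, Reg L C y1 t0 (f w 0) (f w 1) := fun w hw =>
    h3 L C y1 t0 (f b) (f d) (f w) hC1 hL (abs_le.2 ⟨by linarith, by linarith⟩)
      (abs_le.2 ⟨by linarith, by linarith⟩) hb hd (hQe w hw)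
  set B : Fin 5 → Set V := fun i => Fat G f C (cs L C y0 y1 t0 t1 i) with hB
  set W : Fin 5 → Fin 5 → Set V := fun i j => if i = 0 ∧ j = 2 then P else
    if i = 1 ∧ j = 3 then Q else Fat G f C (ws L C y0 y1 t0 t1 i j) with hW
  have W02 : W 0 2 = P := by
    rw [hW]
    simp
  have W13 : W 1 3 = Q := by
    rw [hW]
    simp
  have Wij : ∀ i j, ¬ (i = 0 ∧ j = 2) → ¬ (i = 1 ∧ j = 3) →
      W i j = Fat G f C (ws L C y0 y1 t0 t1 i j) := by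
    intro i j g1 g2
    rw [hW]
    simp only [g1, g2, if_false]
  have F1 : ∀ i w, w ∈ B i → cr L C y0 y1 t0 t1 (6 * C) i (f w 0) (f w 1) := by
    intro i w hw
    obtain ⟨p, hp, hwp⟩ := (h1 V G f C hR _).2 w hw
    exact cr_mono i hp (coord_le hwp 0) (coord_le hwp 1)
  have F2 : ∀ i j w, i < j → w ∈ W i j → crW L C y0 y1 t0 t1 (6 * C) i j (f w 0) (f w 1) := by
    intro i j w hij hw
    by_cases g1 : i = 0 ∧ j = 2
    · obtain ⟨rfl, rfl⟩ := g1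
      rw [W02] at hw
      exact hPreg w hw
    · by_cases g2 : i = 1 ∧ j = 3
      · obtain ⟨rfl, rfl⟩ := g2
        rw [W13] at hw
        exact hQreg w hw
      · rw [Wij i j g1 g2] at hw
        obtain ⟨p, hp, hwp⟩ := (h1 V G f C hR _).2 w hw
        exact crW_mono i j hij g1 g2 hp (coord_le hwp 0) (coord_le hwp 1)
  have F3 : ∀ i w, cr L C y0 y1 t0 t1 0 i (f w 0) (f w 1) → w ∈ B i := by
    intro i w h
    exact mem_fat hC0 (p := f w) h (by rw [sub_self, norm_zero]; exact hC0)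
  have hc0 : pt 0 y0 ∈ cs L C y0 y1 t0 t1 0 :=
    (mem_box (by unfold bx; refine ⟨by linarith, by linarith, by linarith, by linarith⟩) :
      pt 0 y0 ∈ Bx (30 * C + 0) 0 0 y0 y0)
  have hc1 : pt 0 y1 ∈ cs L C y0 y1 t0 t1 1 :=
    (mem_box (by unfold bx; refine ⟨by linarith, by linarith, by linarith, by linarith⟩) :
      pt 0 y1 ∈ Bx (30 * C + 0) 0 0 y1 y1)
  have hc2 : pt L t1 ∈ cs L C y0 y1 t0 t1 2 :=
    (mem_box (by unfold bx; refine ⟨by linarith, by linarith, by linarith, by linarith⟩) :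
      pt L t1 ∈ Bx (30 * C + 0) L L t1 t1)
  have hc3 : pt L t0 ∈ cs L C y0 y1 t0 t1 3 :=
    (mem_box (by unfold bx; refine ⟨by linarith, by linarith, by linarith, by linarith⟩) :
      pt L t0 ∈ Bx (30 * C + 0) L L t0 t0)
  have hdis : ∀ i j k, i < j → k ≠ i → k ≠ j → Disjoint (W i j) (B k) := by
    intro i j k hij g1 g2
    rw [Set.disjoint_left]
    intro w hw hwk
    exact (h4 L C y0 y1 t0 t1 (f w 0) (f w 1) hG).2 i j k hij g1 g2 (F2 i j w hij hw) (F1 k w hwk)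
  apply h2 V G B W
  · intro i
    exact (h1 V G f C hR _).1 (cs_pre hG i).1 (cs_pre hG i).2
  · intro i j hij
    rw [Set.disjoint_left]
    intro w hw hwj
    exact (h4 L C y0 y1 t0 t1 (f w 0) (f w 1) hG).1 i j hij (F1 i w hw) (F1 j w hwj)
  · intro i j hij
    refine ⟨?_, ?_, ?_, fun k g1 g2 => hdis i j k hij g1 g2⟩
    · by_cases g1 : i = 0 ∧ j = 2
      · obtain ⟨rfl, rfl⟩ := g1
        rw [W02]
        exact hP
      · by_cases g2 : i = 1 ∧ j = 3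
        · obtain ⟨rfl, rfl⟩ := g2
          rw [W13]
          exact hQ
        · rw [Wij i j g1 g2]
          obtain ⟨⟨p, hp, -⟩, -⟩ := ws_meet hG i j hij g1 g2
          exact (h1 V G f C hR _).1 (ws_pre hG i j hij g1 g2) ⟨p, hp⟩
    · by_cases g1 : i = 0 ∧ j = 2
      · obtain ⟨rfl, rfl⟩ := g1
        rw [W02]
        exact ⟨a, haP, mem_fat hC0 hc0 ha⟩
      · by_cases g2 : i = 1 ∧ j = 3
        · obtain ⟨rfl, rfl⟩ := g2
          rw [W13]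
          exact ⟨b, hbQ, mem_fat hC0 hc1 hb⟩
        · rw [Wij i j g1 g2]
          obtain ⟨⟨p, hp, hp'⟩, -⟩ := ws_meet hG i j hij g1 g2
          exact meet hR hp hp'
    · by_cases g1 : i = 0 ∧ j = 2
      · obtain ⟨rfl, rfl⟩ := g1
        rw [W02]
        exact ⟨c, hcP, mem_fat hC0 hc2 hc⟩
      · by_cases g2 : i = 1 ∧ j = 3
        · obtain ⟨rfl, rfl⟩ := g2
          rw [W13]
          exact ⟨d, hdQ, mem_fat hC0 hc3 hd⟩
        · rw [Wij i j g1 g2]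
          obtain ⟨-, ⟨p, hp, hp'⟩⟩ := ws_meet hG i j hij g1 g2
          exact meet hR hp hp'
  · intro i j k l hij hkl hne w hw
    obtain ⟨hw1, hw2⟩ := hw
    by_cases g1 : i = 0 ∧ j = 2 ∧ k = 1 ∧ l = 3
    · obtain ⟨rfl, rfl, rfl, rfl⟩ := g1
      rw [W02] at hw1
      rw [W13] at hw2
      exact absurd hw2 (Set.disjoint_left.1 hPQ hw1)
    · by_cases g2 : i = 1 ∧ j = 3 ∧ k = 0 ∧ l = 2
      · obtain ⟨rfl, rfl, rfl, rfl⟩ := g2
        rw [W13] at hw1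
        rw [W02] at hw2
        exact absurd hw1 (Set.disjoint_left.1 hPQ hw2)
      · rcases h5 L C y0 y1 t0 t1 (f w 0) (f w 1) hG i j k l hij hkl hne g1 g2
          (F2 i j w hij hw1) (F2 k l w hkl hw2) with h | h
        · exact Or.inl (F3 i w h)
        · exact Or.inr (F3 j w h)

end Pool.Agent.L7h99.PM
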