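import Pool.Agent.L7h49.PM.Def4
import Pool.Agent.L7h99.PM.Cross

/-! Project PM (planar metric): CROSSB, the form of CROSS for a disc. -/

set_option autoImplicit false

namespace Pool.Agent.L7h99.PM

open Pool.Agent.L7h49.PM

theorem meetB {V : Type} {G : SimpleGraph V} {f : V → E2} {C R : ℝ} (hR : RoughB G f C R)
    {A A' : Set E2} {p : E2} (hpR : ‖p‖ ≤ R) (hp : p ∈ A) (hp' : p ∈ A') :
    (Fat G f C A ∩ Fat G f C A').Nonempty := by
  obtain ⟨x, hx⟩ := hR.net p hpR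
  have hC : 0 ≤ C := by linarith [hR.one]
  exact ⟨x, mem_fat hC hp hx.le, mem_fat hC hp' hx.le⟩

theorem norm_of_coord {p : E2} {L : ℝ} (hL : 0 ≤ L) (h0 : |p 0| ≤ 2 * L + 3 / 100 * L)
    (h1 : |p 1| ≤ 2 * L + 3 / 100 * L) : ‖p‖ ≤ 4 * L := by
  rw [EuclideanSpace.norm_eq, Fin.sum_univ_two]
  apply Real.sqrt_le_iff.mpr
  refine ⟨by linarith, ?_⟩
  rw [Real.norm_eq_abs, Real.norm_eq_abs]
  have e0 := pow_le_pow_left₀ (abs_nonneg (p 0)) h0 2
  have e1 := pow_le_pow_left₀ (abs_nonneg (p 1)) h1 2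
  nlinarith [mul_nonneg hL hL]

theorem bx_bound {L k x1 x2 z1 z2 X Y : ℝ} (h : bx k x1 x2 z1 z2 X Y) (hk : k ≤ 3 / 100 * L)
    (h1 : -(2 * L) ≤ x1) (h2 : x2 ≤ 2 * L) (h3 : -(2 * L) ≤ z1) (h4 : z2 ≤ 2 * L) :
    |X| ≤ 2 * L + 3 / 100 * L ∧ |Y| ≤ 2 * L + 3 / 100 * L := by
  obtain ⟨g1, g2, g3, g4⟩ := h
  exact ⟨abs_le.2 ⟨by linarith, by linarith⟩, abs_le.2 ⟨by linarith, by linarith⟩⟩

section
variable {L C y0 y1 t0 t1 : ℝ}

theorem cs_norm (hG : Good L C y0 y1 t0 t1) (i : Fin 5) (p : E2)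
    (hp : p ∈ cs L C y0 y1 t0 t1 i) : ‖p‖ ≤ 4 * L := by
  have hC := hG.one
  have hL := hG.large
  have a1 := hG.y0
  have a2 := hG.y1
  have a3 := hG.t0
  have a4 := hG.t1
  have a5 := hG.y
  have a6 := hG.t
  have key : |p 0| ≤ 2 * L + 3 / 100 * L ∧ |p 1| ≤ 2 * L + 3 / 100 * L := by
    rcases five i with rfl | rfl | rfl | rfl | rfl
    · have h' : bx (30 * C + 0) 0 0 y0 y0 (p 0) (p 1) := hp
      exact bx_bound h' (by linarith) (by linarith) (by linarith) (by linarith) (by linarith)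
    · have h' : bx (30 * C + 0) 0 0 y1 y1 (p 0) (p 1) := hp
      exact bx_bound h' (by linarith) (by linarith) (by linarith) (by linarith) (by linarith)
    · have h' : bx (30 * C + 0) L L t1 t1 (p 0) (p 1) := hp
      exact bx_bound h' (by linarith) (by linarith) (by linarith) (by linarith) (by linarith)
    · have h' : bx (30 * C + 0) L L t0 t0 (p 0) (p 1) := hp
      exact bx_bound h' (by linarith) (by linarith) (by linarith) (by linarith) (by linarith)
    · have h' : bx 0 (-L) (-L) (-L) (2 * L) (p 0) (p 1) ∨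
        bx 0 (-L) (2 * L) (2 * L) (2 * L) (p 0) (p 1) ∨
        bx 0 (2 * L) (2 * L) (-L) (2 * L) (p 0) (p 1) := hp
      rcases h' with h' | h' | h' <;>
      exact bx_bound h' (by linarith) (by linarith) (by linarith) (by linarith) (by linarith)
  exact norm_of_coord (by linarith) key.1 key.2

theorem ws_norm (hG : Good L C y0 y1 t0 t1) (i j : Fin 5) (hij : i < j)
    (h1 : ¬ (i = 0 ∧ j = 2)) (h2 : ¬ (i = 1 ∧ j = 3)) (p : E2)
    (hp : p ∈ ws L C y0 y1 t0 t1 i j) : ‖p‖ ≤ 4 * L := by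
  have hC := hG.one
  have hL := hG.large
  have a1 := hG.y0
  have a2 := hG.y1
  have a3 := hG.t0
  have a4 := hG.t1
  have a5 := hG.y
  have a6 := hG.t
  have key : |p 0| ≤ 2 * L + 3 / 100 * L ∧ |p 1| ≤ 2 * L + 3 / 100 * L := by
    rcases ten i j hij with ⟨rfl, rfl⟩ | ⟨rfl, rfl⟩ | ⟨rfl, rfl⟩ | ⟨rfl, rfl⟩ | ⟨rfl, rfl⟩ |
      ⟨rfl, rfl⟩ | ⟨rfl, rfl⟩ | ⟨rfl, rfl⟩ | ⟨rfl, rfl⟩ | ⟨rfl, rfl⟩
    · exact bx_bound (show bx 0 0 0 y0 y1 (p 0) (p 1) from hp) (by linarith) (by linarith)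
        (by linarith) (by linarith) (by linarith)
    · exact absurd ⟨rfl, rfl⟩ h1
    · have h' : bx 0 0 0 (-L) y0 (p 0) (p 1) ∨ bx 0 0 L (-L) (-L) (p 0) (p 1) ∨
        bx 0 L L (-L) t0 (p 0) (p 1) := hp
      rcases h' with h' | h' | h' <;>
      exact bx_bound h' (by linarith) (by linarith) (by linarith) (by linarith) (by linarith)
    · exact bx_bound (show bx 0 (-L) 0 y0 y0 (p 0) (p 1) from hp) (by linarith) (by linarith)
        (by linarith) (by linarith) (by linarith)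
    · have h' : bx 0 0 0 y1 L (p 0) (p 1) ∨ bx 0 0 L L L (p 0) (p 1) ∨
        bx 0 L L t1 L (p 0) (p 1) := hp
      rcases h' with h' | h' | h' <;>
      exact bx_bound h' (by linarith) (by linarith) (by linarith) (by linarith) (by linarith)
    · exact absurd ⟨rfl, rfl⟩ h2
    · exact bx_bound (show bx 0 (-L) 0 y1 y1 (p 0) (p 1) from hp) (by linarith) (by linarith)
        (by linarith) (by linarith) (by linarith)
    · exact bx_bound (show bx 0 L L t0 t1 (p 0) (p 1) from hp) (by linarith) (by linarith)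
        (by linarith) (by linarith) (by linarith)
    · exact bx_bound (show bx 0 L (2 * L) t1 t1 (p 0) (p 1) from hp) (by linarith) (by linarith)
        (by linarith) (by linarith) (by linarith)
    · exact bx_bound (show bx 0 L (2 * L) t0 t0 (p 0) (p 1) from hp) (by linarith) (by linarith)
        (by linarith) (by linarith) (by linarith)
  exact norm_of_coord (by linarith) key.1 key.2

end

theorem s_CROSSB (h1 : S_CONB) (h2 : S_MIN) (h3 : S_REG) (h4 : S_PLA) (h5 : S_PLB) :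
    S_CROSSB := by
  intro V G f C L hR y0 y1 t0 t1 hG a b c d P Q ha hb hc hd haP hcP hbQ hdQ hP hQ hPQ hPe hQe
  classical
  have hC1 := hG.one
  have hL := hG.large
  have a1 := hG.y0
  have a2 := hG.y1
  have a3 := hG.t0
  have a4 := hG.t1
  have a5 := hG.y
  have a6 := hG.t
  have hC0 : 0 ≤ C := by linarith
  have hPreg : ∀ w ∈ P, Reg L C y0 t1 (f w 0) (f w 1) := fun w hw =>
    h3 L C y0 t1 (f a) (f c) (f w) hC1 hL (abs_le.2 ⟨by linarith, by linarith⟩)
      (abs_le.2 ⟨by linarith, by linarith⟩) ha hc (hPe w hw)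
  have hQreg : ∀ w ∈ Q, Reg L C y1 t0 (f w 0) (f w 1) := fun w hw =>
    h3 L C y1 t0 (f b) (f d) (f w) hC1 hL (abs_le.2 ⟨by linarith, by linarith⟩)
      (abs_le.2 ⟨by linarith, by linarith⟩) hb hd (hQe w hw)
  set B : Fin 5 → Set V := fun i => Fat G f C (cs L C y0 y1 t0 t1 i) with hB
  set W : Fin 5 → Fin 5 → Set V := fun i j => if i = 0 ∧ j = 2 then P else
    if i = 1 ∧ j = 3 then Q else Fat G f C (ws L C y0 y1 t0 t1 i j) with hW
  have W02 : W 0 2 = P := by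
    rw [hW]
    simp
  have W13 : W 1 3 = Q := by
    rw [hW]
    simp
  have Wij : ∀ i j, ¬ (i = 0 ∧ j = 2) → ¬ (i = 1 ∧ j = 3) →
      W i j = Fat G f C (ws L C y0 y1 t0 t1 i j) := by
    intro i j g1 g2
    rw [hW]
    simp only [g1, g2, if_false]
  have F1 : ∀ i w, w ∈ B i → cr L C y0 y1 t0 t1 (6 * C) i (f w 0) (f w 1) := by
    intro i w hw
    obtain ⟨p, hp, hwp⟩ := (h1 V G f C (4 * L) hR _ (cs_norm hG i)).2 w hw
    exact cr_mono i hp (coord_le hwp 0) (coord_le hwp 1)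
  have F2 : ∀ i j w, i < j → w ∈ W i j → crW L C y0 y1 t0 t1 (6 * C) i j (f w 0) (f w 1) := by
    intro i j w hij hw
    by_cases g1 : i = 0 ∧ j = 2
    · obtain ⟨rfl, rfl⟩ := g1
      rw [W02] at hw
      exact hPreg w hw
    · by_cases g2 : i = 1 ∧ j = 3
      · obtain ⟨rfl, rfl⟩ := g2
        rw [W13] at hw
        exact hQreg w hw
      · rw [Wij i j g1 g2] at hw
        obtain ⟨p, hp, hwp⟩ := (h1 V G f C (4 * L) hR _ (ws_norm hG i j hij g1 g2)).2 w hw
        exact crW_mono i j hij g1 g2 hp (coord_le hwp 0) (coord_le hwp 1)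
  have F3 : ∀ i w, cr L C y0 y1 t0 t1 0 i (f w 0) (f w 1) → w ∈ B i := by
    intro i w h
    exact mem_fat hC0 (p := f w) h (by rw [sub_self, norm_zero]; exact hC0)
  have hc0 : pt 0 y0 ∈ cs L C y0 y1 t0 t1 0 :=
    (mem_box (by unfold bx; refine ⟨by linarith, by linarith, by linarith, by linarith⟩) :
      pt 0 y0 ∈ Bx (30 * C + 0) 0 0 y0 y0)
  have hc1 : pt 0 y1 ∈ cs L C y0 y1 t0 t1 1 :=
    (mem_box (by unfold bx; refine ⟨by linarith, by linarith, by linarith, by linarith⟩) :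
      pt 0 y1 ∈ Bx (30 * C + 0) 0 0 y1 y1)
  have hc2 : pt L t1 ∈ cs L C y0 y1 t0 t1 2 :=
    (mem_box (by unfold bx; refine ⟨by linarith, by linarith, by linarith, by linarith⟩) :
      pt L t1 ∈ Bx (30 * C + 0) L L t1 t1)
  have hc3 : pt L t0 ∈ cs L C y0 y1 t0 t1 3 :=
    (mem_box (by unfold bx; refine ⟨by linarith, by linarith, by linarith, by linarith⟩) :
      pt L t0 ∈ Bx (30 * C + 0) L L t0 t0)
  have hdis : ∀ i j k, i < j → k ≠ i → k ≠ j → Disjoint (W i j) (B k) := by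
    intro i j k hij g1 g2
    rw [Set.disjoint_left]
    intro w hw hwk
    exact (h4 L C y0 y1 t0 t1 (f w 0) (f w 1) hG).2 i j k hij g1 g2 (F2 i j w hij hw) (F1 k w hwk)
  apply h2 V G B W
  · intro i
    exact (h1 V G f C (4 * L) hR _ (cs_norm hG i)).1 (cs_pre hG i).1 (cs_pre hG i).2
  · intro i j hij
    rw [Set.disjoint_left]
    intro w hw hwj
    exact (h4 L C y0 y1 t0 t1 (f w 0) (f w 1) hG).1 i j hij (F1 i w hw) (F1 j w hwj)
  · intro i j hij
    refine ⟨?_, ?_, ?_, fun k g1 g2 => hdis i j k hij g1 g2⟩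
    · by_cases g1 : i = 0 ∧ j = 2
      · obtain ⟨rfl, rfl⟩ := g1
        rw [W02]
        exact hP
      · by_cases g2 : i = 1 ∧ j = 3
        · obtain ⟨rfl, rfl⟩ := g2
          rw [W13]
          exact hQ
        · rw [Wij i j g1 g2]
          obtain ⟨⟨p, hp, -⟩, -⟩ := ws_meet hG i j hij g1 g2
          exact (h1 V G f C (4 * L) hR _ (ws_norm hG i j hij g1 g2)).1
            (ws_pre hG i j hij g1 g2) ⟨p, hp⟩
    · by_cases g1 : i = 0 ∧ j = 2
      · obtain ⟨rfl, rfl⟩ := g1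
        rw [W02]
        exact ⟨a, haP, mem_fat hC0 hc0 ha⟩
      · by_cases g2 : i = 1 ∧ j = 3
        · obtain ⟨rfl, rfl⟩ := g2
          rw [W13]
          exact ⟨b, hbQ, mem_fat hC0 hc1 hb⟩
        · rw [Wij i j g1 g2]
          obtain ⟨⟨p, hp, hp'⟩, -⟩ := ws_meet hG i j hij g1 g2
          exact meetB hR (cs_norm hG i p hp') hp hp'
    · by_cases g1 : i = 0 ∧ j = 2
      · obtain ⟨rfl, rfl⟩ := g1
        rw [W02]
        exact ⟨c, hcP, mem_fat hC0 hc2 hc⟩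
      · by_cases g2 : i = 1 ∧ j = 3
        · obtain ⟨rfl, rfl⟩ := g2
          rw [W13]
          exact ⟨d, hdQ, mem_fat hC0 hc3 hd⟩
        · rw [Wij i j g1 g2]
          obtain ⟨-, ⟨p, hp, hp'⟩⟩ := ws_meet hG i j hij g1 g2
          exact meetB hR (cs_norm hG j p hp') hp hp'
  · intro i j k l hij hkl hne w hw
    obtain ⟨hw1, hw2⟩ := hw
    by_cases g1 : i = 0 ∧ j = 2 ∧ k = 1 ∧ l = 3
    · obtain ⟨rfl, rfl, rfl, rfl⟩ := g1
      rw [W02] at hw1
      rw [W13] at hw2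
      exact absurd hw2 (Set.disjoint_left.1 hPQ hw1)
    · by_cases g2 : i = 1 ∧ j = 3 ∧ k = 0 ∧ l = 2
      · obtain ⟨rfl, rfl, rfl, rfl⟩ := g2
        rw [W13] at hw1
        rw [W02] at hw2
        exact absurd hw1 (Set.disjoint_left.1 hPQ hw2)
      · rcases h5 L C y0 y1 t0 t1 (f w 0) (f w 1) hG i j k l hij hkl hne g1 g2
          (F2 i j w hij hw1) (F2 k l w hkl hw2) with h | h
        · exact Or.inl (F3 i w h)
        · exact Or.inr (F3 j w h)

end Pool.Agent.L7h99.PM
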